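import Pool.Agent.Helper12.VW.Defs

/-!
# VW-E1: the elimination polynomial
-/

set_option autoImplicit false

open Polynomial

namespace Pool.Agent.Helper12.VW

/-- the generic polynomial without constant term -/
private noncomputable def genP (n : ℕ) : (MvPolynomial (Fin n) ℤ)[X] :=
  ∑ i : Fin n, C (MvPolynomial.X i) * X ^ ((i : ℕ) + 1)

/-- the polynomial whose zeros are the negatives of the critical values of `g` -/
private noncomputable def dlt {R : Type*} [CommRing R] (n : ℕ) (g : R[X]) : R[X] :=
  resultant ((derivative g).map (C : R →+* R[X])) (g.map (C : R →+* R[X]) + C X) (n - 1) n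

private theorem dlt_map {R S : Type*} [CommRing R] [CommRing S] (n : ℕ) (g : R[X])
    (φ : R →+* S) : (dlt n g).map φ = dlt n (g.map φ) := by
  have e : (dlt n g).map φ = mapRingHom φ (dlt n g) := rfl
  rw [e]
  unfold dlt
  rw [← resultant_map_map]
  congr 1
  · rw [derivative_map, map_map, map_map, mapRingHom_comp_C]
  · rw [Polynomial.map_add, map_map, map_map, mapRingHom_comp_C, map_C, coe_mapRingHom, map_X]

private theorem dlt_field {k : Type*} [Field k] (n : ℕ) (g : k[X])
    (hs : (derivative g).Splits) (hd : (derivative g).natDegree = n - 1)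
    (hg : g.natDegree ≤ n) :
    dlt n g = C ((derivative g).leadingCoeff ^ n) *
      ((derivative g).roots.map (fun c => X + C (g.eval c))).prod := by
  have hinj : Function.Injective (C : k →+* k[X]) := C_injective
  have h1 := resultant_eq_prod_eval ((derivative g).map (C : k →+* k[X]))
    (g.map (C : k →+* k[X]) + C X) n
    (natDegree_add_le_of_degree_le (natDegree_map_le.trans hg) (by simp)) (hs.map _)
  rw [natDegree_map_eq_of_injective hinj, hd] at h1
  unfold dlt
  rw [h1, leadingCoeff_map_of_injective hinj, hs.roots_map_of_injective hinj, Multiset.map_map,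
    map_pow]
  congr 3
  funext c
  simp only [Function.comp_apply, eval_add, eval_C]
  rw [add_comm, eval_map, eval₂_at_apply]

/-- the elimination polynomial -/
private noncomputable def elim (n : ℕ) : MvPolynomial (Fin n) ℤ :=
  resultant (dlt n (genP n)) (derivative (dlt n (genP n))) (n - 1) (n - 2)

private theorem elim_map {S : Type*} [CommRing S] (n : ℕ) (φ : MvPolynomial (Fin n) ℤ →+* S) :
    φ (elim n) = resultant (dlt n ((genP n).map φ)) (derivative (dlt n ((genP n).map φ)))
      (n - 1) (n - 2) := by
  unfold elim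
  rw [← resultant_map_map, ← dlt_map, derivative_map]

private theorem genP_map {S : Type*} [CommRing S] (n : ℕ) (φ : MvPolynomial (Fin n) ℤ →+* S) :
    (genP n).map φ = ∑ i : Fin n, C (φ (MvPolynomial.X i)) * X ^ ((i : ℕ) + 1) := by
  unfold genP
  rw [Polynomial.map_sum]
  refine Finset.sum_congr rfl fun i _ => ?_
  rw [Polynomial.map_mul, map_C, Polynomial.map_pow, map_X]

/-- the elimination polynomial is not zero -/
private theorem elim_ne_zero (n : ℕ) (hn : 3 ≤ n) : elim n ≠ 0 := by
  obtain ⟨m, rfl⟩ : ∃ m, n = m + 3 := ⟨n - 3, by omega⟩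
  intro h0
  let a : Fin (m + 3) → ℂ := fun i => if i = 0 then -((m : ℂ) + 3) else
    if i = Fin.last (m + 2) then 1 else 0
  let φ : MvPolynomial (Fin (m + 3)) ℤ →+* ℂ := MvPolynomial.eval₂Hom (Int.castRingHom ℂ) a
  have h1 := elim_map (m + 3) φ
  rw [h0, map_zero] at h1
  set g : ℂ[X] := (genP (m + 3)).map φ with hg
  have hgX : g = X ^ (m + 3) - C ((m : ℂ) + 3) * X := by
    rw [hg, genP_map, Fin.sum_univ_succ, Fin.sum_univ_castSucc]
    have e1 : φ (MvPolynomial.X 0) = -((m : ℂ) + 3) := by
      change MvPolynomial.eval₂Hom (Int.castRingHom ℂ) a (MvPolynomial.X 0) = _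
      rw [MvPolynomial.coe_eval₂Hom, MvPolynomial.eval₂_X]
      exact if_pos rfl
    have e2 : φ (MvPolynomial.X (Fin.last (m + 1)).succ) = 1 := by
      change MvPolynomial.eval₂Hom (Int.castRingHom ℂ) a (MvPolynomial.X _) = _
      rw [MvPolynomial.coe_eval₂Hom, MvPolynomial.eval₂_X]
      change (if (Fin.last (m + 1)).succ = 0 then _ else _) = _
      rw [if_neg (Fin.succ_ne_zero _), if_pos (Fin.succ_last _)]
    have e3 : ∀ i : Fin (m + 1), φ (MvPolynomial.X i.castSucc.succ) = 0 := by
      intro i
      change MvPolynomial.eval₂Hom (Int.castRingHom ℂ) a (MvPolynomial.X _) = _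
      rw [MvPolynomial.coe_eval₂Hom, MvPolynomial.eval₂_X]
      change (if i.castSucc.succ = 0 then _ else _) = _
      rw [if_neg (Fin.succ_ne_zero _), if_neg]
      intro h
      have := congrArg Fin.val h
      have hi := i.isLt
      simp at this
      omega
    have e4 : ∑ i : Fin (m + 1), C (φ (MvPolynomial.X i.castSucc.succ)) *
        (X : ℂ[X]) ^ ((i.castSucc.succ : ℕ) + 1) = 0 := by
      refine Finset.sum_eq_zero fun i _ => ?_
      rw [e3, C_0, zero_mul]
    rw [e1, e2, e4]
    simp only [Fin.val_zero, Fin.val_succ, Fin.val_last, C_neg, C_1]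
    ring
  have hg' : derivative g = C ((m : ℂ) + 3) * (X ^ (m + 2) - C 1) := by
    rw [hgX, derivative_sub, derivative_X_pow, derivative_C_mul, derivative_X]
    push_cast
    simp only [C_add, C_1, map_natCast, map_ofNat]
    ring
  have hm3 : ((m : ℂ) + 3) ≠ 0 := by
    have : ((m + 3 : ℕ) : ℂ) ≠ 0 := Nat.cast_ne_zero.2 (by omega)
    intro h
    apply this
    push_cast
    exact h
  have hsep : (X ^ (m + 2) - C (1 : ℂ)).Separable :=
    separable_X_pow_sub_C 1 (Nat.cast_ne_zero.2 (by omega)) one_ne_zero
  have hroots : (derivative g).roots = (X ^ (m + 2) - C (1 : ℂ)).roots := by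
    rw [hg', roots_C_mul _ hm3]
  have hnodup : (derivative g).roots.Nodup := by
    rw [hroots]
    exact nodup_roots hsep
  have hs : (derivative g).Splits := IsAlgClosed.splits _
  have hd : (derivative g).natDegree = m + 3 - 1 := by
    rw [hg', natDegree_C_mul hm3, natDegree_X_pow_sub_C]
    rfl
  have hgd : g.natDegree ≤ m + 3 := by
    rw [hgX]
    compute_degree
  rw [dlt_field (m + 3) g hs hd hgd] at h1
  set D : ℂ[X] := C ((derivative g).leadingCoeff ^ (m + 3)) *
      ((derivative g).roots.map (fun c => X + C (g.eval c))).prod with hD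
  have hlc : (derivative g).leadingCoeff ^ (m + 3) ≠ 0 := by
    apply pow_ne_zero
    rw [Ne, leadingCoeff_eq_zero]
    intro h
    rw [h, natDegree_zero] at hd
    omega
  -- the product over the roots is separable
  have hprod : ((derivative g).roots.map (fun c => X + C (g.eval c))).prod =
      ∏ c ∈ (derivative g).roots.toFinset, (X - C (-(g.eval c))) := by
    rw [Finset.prod_eq_multiset_prod, Multiset.toFinset_val, hnodup.dedup]
    congr 2
    funext c
    rw [C_neg, sub_neg_eq_add]
  have hval : ∀ c ∈ (derivative g).roots.toFinset, g.eval c = -((m : ℂ) + 2) * c := by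
    intro c hc
    rw [Multiset.mem_toFinset, hroots, mem_roots hsep.ne_zero] at hc
    have h2 : c ^ (m + 2) = 1 := by
      have := hc
      rw [IsRoot.def, eval_sub, eval_pow, eval_X, eval_C, sub_eq_zero] at this
      exact this
    rw [hgX, eval_sub, eval_pow, eval_mul, eval_X, eval_C, pow_succ, h2]
    ring
  have hPsep : (∏ c ∈ (derivative g).roots.toFinset, (X - C (-(g.eval c)))).Separable := by
    rw [separable_prod_X_sub_C_iff']
    intro x hx y hy hxy
    rw [hval x hx, hval y hy] at hxy
    have hm2 : ((m : ℂ) + 2) ≠ 0 := by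
      have : ((m + 2 : ℕ) : ℂ) ≠ 0 := Nat.cast_ne_zero.2 (by omega)
      intro h
      apply this
      push_cast
      exact h
    have : ((m : ℂ) + 2) * x = ((m : ℂ) + 2) * y := by linear_combination hxy
    exact mul_left_cancel₀ hm2 this
  have hDsep : D.Separable := by
    rw [hD, hprod, separable_def, derivative_C_mul,
      isCoprime_mul_unit_left (isUnit_C.2 hlc.isUnit)]
    exact hPsep
  have hDdeg : D.natDegree = m + 2 := by
    rw [hD, natDegree_C_mul hlc, hprod, natDegree_prod_of_monic _ _ (fun c _ => monic_X_sub_C _)]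
    simp only [natDegree_X_sub_C, Finset.sum_const, smul_eq_mul, mul_one]
    rw [Multiset.toFinset_card_of_nodup hnodup, ← hs.natDegree_eq_card_roots, hd]
    rfl
  have h2 := resultant_ne_zero D (derivative D) hDsep
  apply h2
  rw [natDegree_derivative, hDdeg]
  exact h1.symm

/-- two common zeros (with multiplicity) of `f` and its derivative give a double zero of the
polynomial of critical values -/
private theorem double_zero {k : Type*} [Field k] [IsAlgClosed k] [DecidableEq k] (n : ℕ) (g : k[X]) (t : k)
    (hd : (derivative g).natDegree = n - 1) (hd' : derivative g ≠ 0) (hg : g.natDegree = n)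
    (hf : ((g + C t).roots.toFinset.card) + 2 ≤ n) :
    ∃ Q : k[X], dlt n g = (X - C t) ^ 2 * Q := by
  have hs : (derivative g).Splits := IsAlgClosed.splits _
  rw [dlt_field n g hs hd hg.le]
  have hn : n ≠ 0 := by omega
  have hfd : (g + C t).natDegree = n := by rw [natDegree_add_C, hg]
  have hf0 : g + C t ≠ 0 := by
    intro h
    rw [h, natDegree_zero] at hfd
    exact hn hfd.symm
  have hfder : derivative (g + C t) = derivative g := by
    rw [derivative_add, derivative_C, add_zero]
  set M := (g + C t).roots - (g + C t).roots.dedup with hM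
  have hMle : M ≤ (derivative g).roots := by
    rw [Multiset.le_iff_count]
    intro c
    rw [hM, Multiset.count_sub, count_roots, count_roots, ← hfder]
    have h1 := rootMultiplicity_sub_one_le_derivative_rootMultiplicity_of_ne_zero (g + C t) c
      (by rw [hfder]; exact hd')
    by_cases hc : c ∈ (g + C t).roots
    · rw [Multiset.count_eq_one_of_mem (Multiset.nodup_dedup _) (Multiset.mem_dedup.2 hc)]
      exact h1
    · have h2 : (g + C t).rootMultiplicity c = 0 := by
        rw [← count_roots]
        exact Multiset.count_eq_zero_of_notMem hc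
      rw [h2]
      exact (Nat.sub_le _ _).trans (Nat.zero_le _)
  have hMcard : 2 ≤ M.card := by
    rw [hM, Multiset.card_sub (Multiset.dedup_le _),
      ← (IsAlgClosed.splits (g + C t)).natDegree_eq_card_roots, hfd]
    have : (g + C t).roots.dedup.card = (g + C t).roots.toFinset.card := rfl
    omega
  have hMval : ∀ c ∈ M, g.eval c = -t := by
    intro c hc
    have h1 : c ∈ (g + C t).roots := Multiset.mem_of_le (Multiset.sub_le_self _ _) hc
    rw [mem_roots hf0, IsRoot.def, eval_add, eval_C] at h1
    exact eq_neg_of_add_eq_zero_left h1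
  obtain ⟨N, hN⟩ := Multiset.le_iff_exists_add.1 hMle
  have hMprod : (M.map (fun c => X + C (g.eval c))).prod = (X - C t) ^ M.card := by
    rw [Multiset.map_congr rfl (g := fun _ => X - C t)
      (fun c hc => by rw [hMval c hc, C_neg, sub_eq_add_neg]), Multiset.map_const',
      Multiset.prod_replicate]
  refine ⟨C ((derivative g).leadingCoeff ^ n) * ((X - C t) ^ (M.card - 2) *
    (N.map (fun c => X + C (g.eval c))).prod), ?_⟩
  rw [hN, Multiset.map_add, Multiset.prod_add, hMprod]
  have : (X - C t) ^ M.card = (X - C t) ^ 2 * (X - C t) ^ (M.card - 2) := by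
    rw [← pow_add, Nat.add_sub_cancel' hMcard]
  rw [this]
  ring

/-- VW-E1: elimination polynomial in the coefficients `a_1, …, a_n`. -/
theorem exists_elim (n : ℕ) (hn : 3 ≤ n) : ∃ E : MvPolynomial (Fin n) ℤ, E ≠ 0 ∧
    ∀ (p : ℕ) (a : Fin (n + 1) → ℤ), n < p → ¬ ((p : ℤ) ∣ a (Fin.last n)) → InInd a p 2 →
      (p : ℤ) ∣ MvPolynomial.eval (fun i : Fin n => a i.succ) E := by
  classical
  refine ⟨elim n, elim_ne_zero n hn, fun p a hp hlast hInd => ?_⟩
  obtain ⟨hpp, hv⟩ := hInd
  have : Fact p.Prime := ⟨hpp⟩
  set k := AlgebraicClosure (ZMod p) with hk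
  have hlast' : ((a (Fin.last n) : ℤ) : ZMod p) ≠ 0 := by
    rw [Ne, ZMod.intCast_zmod_eq_zero_iff_dvd]
    exact hlast
  have hcp : CharP k p := inferInstance
  set φ : MvPolynomial (Fin n) ℤ →+* k :=
    MvPolynomial.eval₂Hom (Int.castRingHom k) (fun i => ((a i.succ : ℤ) : k)) with hφ
  have hφe : ∀ q, φ q = ((MvPolynomial.eval (fun i : Fin n => a i.succ) q : ℤ) : k) := by
    intro q
    have h1 : φ = (Int.castRingHom k).comp (MvPolynomial.eval (fun i : Fin n => a i.succ)) := by
      apply MvPolynomial.ringHom_ext
      · intro r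
        simp [hφ]
      · intro i
        simp [hφ]
    rw [h1]
    rfl
  have key : φ (elim n) = 0 := by
    rw [elim_map]
    set g : k[X] := (genP n).map φ with hg
    have hgX : g = ∑ i : Fin n, C ((a i.succ : ℤ) : k) * X ^ ((i : ℕ) + 1) := by
      rw [hg, genP_map]
      refine Finset.sum_congr rfl fun i _ => ?_
      congr 2
      rw [hφ, MvPolynomial.coe_eval₂Hom, MvPolynomial.eval₂_X]
    have hgf : g + C ((a 0 : ℤ) : k) =
        (toPoly (fun i => ((a i : ℤ) : ZMod p))).map (algebraMap (ZMod p) k) := by
      have e : ∀ z : ℤ, algebraMap (ZMod p) k (z : ZMod p) = (z : k) := fun z => map_intCast _ z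
      unfold toPoly
      rw [Polynomial.map_sum, Fin.sum_univ_succ, hgX, add_comm]
      congr 1
      · rw [Polynomial.map_mul, map_C, Polynomial.map_pow, map_X, Fin.val_zero, pow_zero, mul_one]
        exact congrArg C (e _).symm
      · refine Finset.sum_congr rfl fun i _ => ?_
        rw [Polynomial.map_mul, map_C, Polynomial.map_pow, map_X, Fin.val_succ]
        exact congrArg (fun z => C z * X ^ ((i : ℕ) + 1)) (e _).symm
    have hcoeff : g.coeff n = ((a (Fin.last n) : ℤ) : k) := by
      obtain ⟨m, rfl⟩ : ∃ m, n = m + 1 := ⟨n - 1, by omega⟩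
      rw [hgX, finsetSum_coeff, Finset.sum_eq_single (Fin.last m)]
      · rw [coeff_C_mul, Fin.val_last, coeff_X_pow_self, mul_one, Fin.succ_last]
      · intro i _ hi
        rw [coeff_C_mul, coeff_X_pow, if_neg, mul_zero]
        intro h
        exact hi (Fin.ext (by rw [Fin.val_last]; omega))
      · intro h
        exact absurd (Finset.mem_univ _) h
    have hak : ((a (Fin.last n) : ℤ) : k) ≠ 0 := by
      intro h
      apply hlast
      exact (CharP.intCast_eq_zero_iff k p _).1 h
    have hgle : g.natDegree ≤ n := by
      rw [hgX]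
      refine natDegree_sum_le_of_forall_le _ _ fun i _ => ?_
      refine (natDegree_C_mul_X_pow_le _ _).trans ?_
      have := i.isLt
      omega
    have hgd : g.natDegree = n := by
      refine le_antisymm hgle (le_natDegree_of_ne_zero ?_)
      rw [hcoeff]
      exact hak
    have hnk : (n : k) ≠ 0 := by
      intro h
      have h1 := (CharP.cast_eq_zero_iff k p n).1 h
      exact absurd (Nat.le_of_dvd (by omega) h1) (by omega)
    have hdc : (derivative g).coeff (n - 1) ≠ 0 := by
      rw [coeff_derivative]
      have e1 : n - 1 + 1 = n := by omega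
      have e2 : (((n - 1 : ℕ) : k) + 1) = (n : k) := by
        rw [← Nat.cast_succ]
        congr 1
      rw [e1, e2, hcoeff]
      exact mul_ne_zero hak hnk
    have hdd : (derivative g).natDegree = n - 1 := by
      refine le_antisymm ((natDegree_derivative_le g).trans (by rw [hgd]))
        (le_natDegree_of_ne_zero hdc)
    have hd' : derivative g ≠ 0 := by
      intro h
      rw [h, coeff_zero] at hdc
      exact hdc rfl
    have hcard : ((g + C ((a 0 : ℤ) : k)).roots.toFinset.card) + 2 ≤ n := by
      rcases hv with h0 | h1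
      · exfalso
        exact hlast' (congrFun h0 (Fin.last n))
      · unfold nroots at h1
        rw [if_neg hlast', add_zero] at h1
        have h2 : ((toPoly (fun i => ((a i : ℤ) : ZMod p))).rootSet k) =
            (((g + C ((a 0 : ℤ) : k)).roots.toFinset : Finset k) : Set k) := by
          rw [rootSet, aroots, hgf]
        rw [h2, Set.ncard_coe_finset] at h1
        exact h1
    obtain ⟨Q, hQ⟩ := double_zero n g ((a 0 : ℤ) : k) hdd hd' hgd hcard
    have hDdeg : (dlt n g).natDegree ≤ n - 1 := by
      rw [dlt_field n g (IsAlgClosed.splits _) hdd hgd.le]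
      refine (natDegree_C_mul_le _ _).trans ?_
      refine (natDegree_multiset_prod_le _).trans ?_
      rw [Multiset.map_map]
      have h3 : ((derivative g).roots.map (natDegree ∘ fun c => X + C (g.eval c))) =
          (derivative g).roots.map (fun _ => 1) :=
        Multiset.map_congr rfl (fun c _ => by
          simp only [Function.comp_apply, natDegree_X_add_C])
      rw [h3, Multiset.map_const', Multiset.sum_replicate, smul_eq_mul, mul_one, ← hdd]
      exact card_roots' _
    obtain ⟨u, w, -, -, huw⟩ := exists_mul_add_mul_eq_C_resultant (m := n - 1) (n := n - 2)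
      (dlt n g) (derivative (dlt n g)) hDdeg
      ((natDegree_derivative_le _).trans (by omega)) (Or.inl (by omega))
    have h4 := congrArg (eval ((a 0 : ℤ) : k)) huw
    have e1 : eval ((a 0 : ℤ) : k) (dlt n g) = 0 := by
      rw [hQ, eval_mul, eval_pow, eval_sub, eval_X, eval_C, sub_self]
      ring
    have e2 : eval ((a 0 : ℤ) : k) (derivative (dlt n g)) = 0 := by
      have e0 : eval ((a 0 : ℤ) : k) (X - C ((a 0 : ℤ) : k)) = 0 := by
        rw [eval_sub, eval_X, eval_C, sub_self]
      rw [hQ, derivative_mul, derivative_pow, eval_add, eval_mul, eval_mul, eval_mul, eval_mul,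
        eval_pow, eval_pow, e0]
      ring
    rw [eval_C, eval_add, eval_mul, eval_mul, e1, e2, zero_mul, zero_mul, add_zero] at h4
    exact h4.symm
  rw [hφe] at key
  exact (CharP.intCast_eq_zero_iff k p _).1 key

end Pool.Agent.Helper12.VW
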